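import Mathlib
import Pool.Agent.H2.RS3

namespace Pool.Agent.Results.MP_c8715f_al.DualNotS

open Pool.Agent.H2.RS

/-- A non-separable metrizable abelian group whose dual group is not an s-group. -/
theorem result : ∃ (G : Type) (_ : CommGroup G) (_ : TopologicalSpace G), IsTopologicalGroup G ∧
    T2Space G ∧ TopologicalSpace.MetrizableSpace G ∧ FrechetUrysohnSpace G ∧ SequentialSpace G ∧
    ¬ TopologicalSpace.SeparableSpace G ∧
    ¬ ∃ S : Set (ℕ → PontryaginDual G), Gen (PontryaginDual G) S :=
  ⟨GG, inferInstance, inferInstance, inferInstance, inferInstance, inferInstance, inferInstance,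
    inferInstance, not_sep, fun ⟨S, hS⟩ => not_gen S hS⟩

end Pool.Agent.Results.MP_c8715f_al.DualNotS
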